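import Pool.Agent.J4H12.MX.Stm

/-!
# MX-DIR: the direct decomposition (for helper12)
-/

set_option autoImplicit false

universe u

namespace Pool.Agent.J4H18.MX

open Pool.Agent.J4H12.MX

variable {G : Type u} [Group G] [TopologicalSpace G]

section top

variable [IsTopologicalGroup G] [CompactSpace G]

lemma finite_quot {U : Subgroup G} (hU : ON U) : Finite (G ⧸ U) :=
  Subgroup.quotient_finite_of_isOpen U hU.2

/-- order of an element modulo `U` -/
lemma ord_dvd_index {U : Subgroup G} (hU : ON U) (y : G) {r : ℕ}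
    (hr : r ∣ (letI := hU.1; orderOf (y : G ⧸ U))) : r ∣ U.relIndex ⊤ := by
  letI := hU.1
  haveI := finite_quot hU
  rw [Subgroup.relIndex_top_right]
  refine hr.trans ?_
  rw [Subgroup.index]
  exact orderOf_dvd_natCard _

lemma ord_dvd_relIndex {U K : Subgroup G} (hU : ON U) {y : G} (hy : y ∈ K) {r : ℕ}
    (hr : r ∣ (letI := hU.1; orderOf (y : G ⧸ U))) : r ∣ U.relIndex K := by
  letI := hU.1
  refine hr.trans ?_
  rw [orderOf_dvd_iff_pow_eq_one, ← QuotientGroup.mk_pow, QuotientGroup.eq_one_iff]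
  have h1 : (⟨y, hy⟩ : K) ^ (U.subgroupOf K).index ∈ U.subgroupOf K :=
    Subgroup.pow_index_mem _ _
  rw [Subgroup.mem_subgroupOf] at h1
  simpa [Subgroup.relIndex] using h1

/-- an element whose order modulo `U` is only divisible by `p` -/
lemma pow_mem {U : Subgroup G} (hU : ON U) {p : ℕ} {y : G}
    (h : ∀ r : ℕ, r.Prime → r ∣ (letI := hU.1; orderOf (y : G ⧸ U)) → r = p) :
    ∃ k : ℕ, y ^ p ^ k ∈ U := by
  letI := hU.1
  haveI := finite_quot hU
  have h0 : orderOf (y : G ⧸ U) ≠ 0 := (orderOf_pos _).ne'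
  have h1 := Nat.eq_prime_pow_of_unique_prime_dvd h0 (fun {d} hd hdv => h d hd hdv)
  refine ⟨(orderOf (y : G ⧸ U)).primeFactorsList.length, ?_⟩
  rw [← h1, ← QuotientGroup.eq_one_iff, QuotientGroup.mk_pow]
  exact pow_orderOf_eq_one _

end top

section prof

variable [IsTopologicalGroup G] [CompactSpace G] [TotallyDisconnectedSpace G]

theorem eq_one_of_forall {x : G} (h : ∀ U : Subgroup G, ON U → x ∈ U) : x = 1 := by
  by_contra hx
  have h1 : IsOpen ({x}ᶜ : Set G) := isOpen_compl_singleton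
  obtain ⟨H, hH⟩ := ProfiniteGrp.exist_openNormalSubgroup_sub_open_nhds_of_one h1
    (by simpa using Ne.symm hx)
  have := h H.toSubgroup ⟨H.isNormal', H.isOpen'⟩
  exact hH this rfl

theorem mem_of_forall {H : Subgroup G} (hH : IsClosed (H : Set G)) {x : G}
    (h : ∀ U : Subgroup G, ON U → x ∈ H ⊔ U) : x ∈ H := by
  by_contra hx
  have h1 : IsOpen ((fun y => x * y⁻¹) ⁻¹' ((H : Set G)ᶜ)) :=
    hH.isOpen_compl.preimage (by fun_prop)
  obtain ⟨U, hU⟩ := ProfiniteGrp.exist_openNormalSubgroup_sub_open_nhds_of_one h1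
    (by simpa using hx)
  haveI : U.toSubgroup.Normal := U.isNormal'
  have h2 := h U.toSubgroup ⟨U.isNormal', U.isOpen'⟩
  obtain ⟨a, ha, b, hb, hab⟩ := Subgroup.mem_sup_of_normal_right.1 h2
  have h3 := hU (show b ∈ (U : Set G) from hb)
  apply h3
  have : x * b⁻¹ = a := by rw [← hab]; group
  show x * b⁻¹ ∈ (H : Set G)
  rw [this]; exact ha

end prof

/-- the open normal subgroup -/
def MM (s : Finset ℕ) (N : ℕ → Subgroup G) : Subgroup G where
  carrier := {x | ∀ p ∈ s, x ∈ N p}
  mul_mem' := fun ha hb p hp => (N p).mul_mem (ha p hp) (hb p hp)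
  one_mem' := fun p _ => (N p).one_mem
  inv_mem' := fun ha p hp => (N p).inv_mem (ha p hp)

lemma mem_MM {s : Finset ℕ} {N : ℕ → Subgroup G} {x : G} : x ∈ MM s N ↔ ∀ p ∈ s, x ∈ N p :=
  Iff.rfl

/-- the pro-`p` factor -/
def RR (s : Finset ℕ) (N K : ℕ → Subgroup G) (p : ℕ) : Subgroup G where
  carrier := {x | x ∈ MM s N ∧ ∀ r ∈ s, r ≠ p → x ∈ K r}
  mul_mem' := fun ha hb => ⟨(MM s N).mul_mem ha.1 hb.1,
    fun r hr h => (K r).mul_mem (ha.2 r hr h) (hb.2 r hr h)⟩
  one_mem' := ⟨(MM s N).one_mem, fun r _ _ => (K r).one_mem⟩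
  inv_mem' := fun ha => ⟨(MM s N).inv_mem ha.1, fun r hr h => (K r).inv_mem (ha.2 r hr h)⟩

lemma mem_RR {s : Finset ℕ} {N K : ℕ → Subgroup G} {p : ℕ} {x : G} :
    x ∈ RR s N K p ↔ x ∈ MM s N ∧ ∀ r ∈ s, r ≠ p → x ∈ K r := Iff.rfl

lemma list_zpow (x : G) (e : ℕ → ℤ) (l : List ℕ) :
    (l.map fun p => x ^ e p).prod = x ^ (l.map e).sum := by
  induction l with
  | nil => simp
  | cons a l ih => rw [List.map_cons, List.prod_cons, List.map_cons, List.sum_cons, zpow_add, ih]

theorem t_DIR : S_DIR.{u} := by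
  intro G _ _ _ _ _ s N K hs hdiv hK
  have hMn : (MM s N).Normal := ⟨fun x hx g p hp => by
    haveI := (hK p hp).1.1
    exact (hK p hp).1.1.conj_mem x (hx p hp) g⟩
  have hMo : IsOpen ((MM s N : Subgroup G) : Set G) := by
    have e : ((MM s N : Subgroup G) : Set G) = ⋂ p ∈ s, (N p : Set G) := by
      ext x
      simp only [SetLike.mem_coe, mem_MM, Set.mem_iInter]
    rw [e]
    exact isOpen_biInter_finset fun p hp => (hK p hp).1.2
  have hMc : IsClosed ((MM s N : Subgroup G) : Set G) := Subgroup.isClosed_of_isOpen _ hMo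
  -- the orders of the elements of `R p`
  have hpro : ∀ p : ℕ, ∀ x : G, (∀ r ∈ s, r ≠ p → x ∈ K r) → ∀ U : Subgroup G, ON U →
      ∃ k : ℕ, x ^ p ^ k ∈ U := by
    intro p x hx U hU
    apply pow_mem hU
    intro r hr hrd
    have hrs : r ∈ s := hdiv r hr ⟨U, hU, ord_dvd_index hU x hrd⟩
    by_contra hne
    exact (hK r hrs).2.2.2.2.1 ⟨U, hU, ord_dvd_relIndex hU (hx r hrs hne) hrd⟩
  refine ⟨MM s N, RR s N K, ⟨hMn, hMo⟩, fun p hp => ⟨?_, ?_, ?_⟩, ?_⟩
  · have e : ((RR s N K p : Subgroup G) : Set G) =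
        ((MM s N : Subgroup G) : Set G) ∩ ⋂ r ∈ s.erase p, (K r : Set G) := by
      ext x
      simp only [SetLike.mem_coe, mem_RR, Set.mem_inter_iff, Set.mem_iInter, Finset.mem_erase]
      constructor
      · rintro ⟨h1, h2⟩
        exact ⟨h1, fun r hr => h2 r hr.2 hr.1⟩
      · rintro ⟨h1, h2⟩
        exact ⟨h1, fun r hr hne => h2 r ⟨hne, hr⟩⟩
    rw [e]
    exact hMc.inter (isClosed_biInter fun r hr => (hK r (Finset.mem_of_mem_erase hr)).2.1)
  · exact ⟨fun x hx g => ⟨hMn.conj_mem x hx.1 g, fun r hr hne =>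
      (hK r hr).2.2.1.conj_mem x (hx.2 r hr hne) g⟩⟩
  · intro x hx U hU
    exact hpro p x hx.2 U hU
  · apply le_antisymm
    · intro x hx
      rcases s.eq_empty_or_nonempty with rfl | hne
      · -- the group is trivial
        have h1 : x = 1 := by
          apply eq_one_of_forall
          intro U hU
          obtain ⟨k, hk⟩ := hpro 0 x (fun r hr => absurd hr (Finset.notMem_empty r)) U hU
          obtain ⟨l, hl⟩ := hpro 1 x (fun r hr => absurd hr (Finset.notMem_empty r)) U hU
          simpa using hl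
        rw [h1]
        exact Subgroup.one_mem _
      · -- compactness
        let ι : Type u := {U : Subgroup G // ON U}
        let C : ι → Set (ℕ → G) := fun U => {y | (∀ p ∈ s, y p ∈ MM s N ∧
          ∀ r ∈ s, r ≠ p → y p ∈ K r ⊔ U.1) ∧ (s.toList.map fun p => y p).prod = x}
        have hcl : ∀ U : ι, ∀ r, IsClosed ((K r ⊔ U.1 : Subgroup G) : Set G) := by
          intro U r
          exact Subgroup.isClosed_of_isOpen _ (Subgroup.isOpen_mono le_sup_right U.2.2)
        have hC : ∀ U : ι, IsClosed (C U) := by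
          intro U
          have e : C U = (⋂ p ∈ s, ((fun y : ℕ → G => y p) ⁻¹' (MM s N : Subgroup G)) ∩
              ⋂ r ∈ s.erase p, (fun y : ℕ → G => y p) ⁻¹' (K r ⊔ U.1 : Subgroup G)) ∩
              ((fun y : ℕ → G => (s.toList.map fun p => y p).prod) ⁻¹' {x}) := by
            ext y
            simp only [C, Set.mem_setOf_eq, Set.mem_inter_iff, Set.mem_iInter, Set.mem_preimage,
              SetLike.mem_coe, Finset.mem_erase, Set.mem_singleton_iff]
            constructor
            · rintro ⟨h1, h2⟩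
              exact ⟨fun p hp => ⟨(h1 p hp).1, fun r hr => (h1 p hp).2 r hr.2 hr.1⟩, h2⟩
            · rintro ⟨h1, h2⟩
              exact ⟨fun p hp => ⟨(h1 p hp).1, fun r hr hne => (h1 p hp).2 r ⟨hne, hr⟩⟩, h2⟩
          rw [e]
          refine IsClosed.inter (isClosed_biInter fun p _ => IsClosed.inter
            (hMc.preimage (continuous_apply p)) (isClosed_biInter fun r _ =>
              (hcl U r).preimage (continuous_apply p))) ?_
          refine IsClosed.preimage ?_ isClosed_singleton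
          exact continuous_list_prod _ fun p _ => continuous_apply p
        have hdir : Directed (fun a b : Set (ℕ → G) => a ⊇ b) C := by
          intro U V
          refine ⟨⟨U.1 ⊓ V.1, ?_, ?_⟩, ?_, ?_⟩
          · haveI := U.2.1
            haveI := V.2.1
            infer_instance
          · exact U.2.2.inter V.2.2
          · rintro y ⟨h1, h2⟩
            exact ⟨fun p hp => ⟨(h1 p hp).1, fun r hr hne =>
              (sup_le_sup_left (inf_le_left : U.1 ⊓ V.1 ≤ U.1) (K r)) ((h1 p hp).2 r hr hne)⟩, h2⟩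
          · rintro y ⟨h1, h2⟩
            exact ⟨fun p hp => ⟨(h1 p hp).1, fun r hr hne =>
              (sup_le_sup_left (inf_le_right : U.1 ⊓ V.1 ≤ V.1) (K r)) ((h1 p hp).2 r hr hne)⟩, h2⟩
        have hnon : ∀ U : ι, (C U).Nonempty := by
          intro U
          have hk : ∀ r ∈ s, ∃ k : ℕ, x ^ r ^ k ∈ K r ⊔ U.1 := fun r hr =>
            (hK r hr).2.2.2.2.2 x (hx r hr) U.1 U.2
          choose! k hk using hk
          have hcop : Pairwise (Function.onFun IsCoprime
              (fun i : s => (((i : ℕ) ^ k i : ℕ) : ℤ))) := by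
            intro a b hab
            have h1 : Nat.Coprime ((a : ℕ) ^ k a) ((b : ℕ) ^ k b) := by
              apply Nat.Coprime.pow
              exact (Nat.coprime_primes (hs a a.2) (hs b b.2)).mpr
                (fun h => hab (Subtype.ext h))
            exact Nat.isCoprime_iff_coprime.mpr h1
          obtain ⟨μ, hμ⟩ := (exists_sum_eq_one_iff_pairwise_coprime
            (s := fun i : ℕ => ((i ^ k i : ℕ) : ℤ)) (t := s) hne).mpr hcop
          set e : ℕ → ℤ := fun p => μ p * ∏ j ∈ s \ {p}, ((j ^ k j : ℕ) : ℤ) with he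
          refine ⟨fun p => x ^ e p, fun p hp => ⟨(MM s N).zpow_mem hx _, fun r hr hne' => ?_⟩, ?_⟩
          · have hd : (((r ^ k r : ℕ) : ℤ)) ∣ e p := by
              apply Dvd.dvd.mul_left
              apply Finset.dvd_prod_of_mem (fun j => ((j ^ k j : ℕ) : ℤ))
              rw [Finset.mem_sdiff, Finset.mem_singleton]
              exact ⟨hr, hne'⟩
            obtain ⟨c, hc⟩ := hd
            show x ^ e p ∈ K r ⊔ U.1
            rw [hc, zpow_mul, zpow_natCast]
            exact Subgroup.zpow_mem _ (hk r hr) _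
          · rw [list_zpow, Finset.sum_map_toList, hμ, zpow_one]
        obtain ⟨U0⟩ : Nonempty ι := ⟨⟨⊤, ⟨inferInstance, isOpen_univ⟩⟩⟩
        haveI : Nonempty ι := ⟨U0⟩
        obtain ⟨y, hy⟩ := IsCompact.nonempty_iInter_of_directed_nonempty_isCompact_isClosed C hdir
          hnon (fun U => (hC U).isCompact) hC
        rw [Set.mem_iInter] at hy
        have hy2 : (s.toList.map fun p => y p).prod = x := (hy U0).2
        rw [← hy2]
        apply Subgroup.list_prod_mem
        intro z hz
        rw [List.mem_map] at hz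
        obtain ⟨p, hp, rfl⟩ := hz
        rw [Finset.mem_toList] at hp
        have h3 : RR s N K p ≤ ⨆ p ∈ s, RR s N K p := le_iSup₂_of_le p hp le_rfl
        apply h3
        refine ⟨((hy U0).1 p hp).1, fun r hr hne' => ?_⟩
        apply mem_of_forall (hK r hr).2.1
        intro U hU
        exact ((hy ⟨U, hU⟩).1 p hp).2 r hr hne'
    · exact iSup₂_le fun p _ x hx => hx.1

end Pool.Agent.J4H18.MX
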